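import Pool.Agent.D0H99.OD.Stm4

set_option autoImplicit false

/-!
# Project OD, module LWB: the limit of the sums of the interpolation polynomials (dominated convergence)
-/

namespace Pool.Agent.D0H62.OD

open Finset Filter Pool.Agent.D0H99.OD

theorem ww_nonneg (d : ℕ) : 0 ≤ ww d := by
  unfold ww
  refine prod_nonneg fun i _ => div_nonneg (by norm_num) ?_
  have : (1 : ℝ) ≤ 2 ^ (i + 1) := one_le_pow₀ (by norm_num)
  linarith

theorem prodT (d : ℕ) : ∏ i ∈ range d, (2 : ℝ) ^ (i + 1) = 2 ^ (d * (d + 1) / 2) := by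
  induction d with
  | zero => simp
  | succ d ih =>
    rw [prod_range_succ, ih, ← pow_add]
    congr 1
    have : (d + 1) * (d + 1 + 1) = d * (d + 1) + 2 * (d + 1) := by ring
    rw [this, Nat.add_mul_div_left _ _ (by norm_num)]

theorem ww_le (d : ℕ) : ww d * 2 ^ (d * (d + 1) / 2) ≤ 4 ^ d := by
  rw [← prodT]
  unfold ww
  rw [← prod_mul_distrib]
  have : (4 : ℝ) ^ d = ∏ _i ∈ range d, (4 : ℝ) := by simp
  rw [this]
  refine prod_le_prod (fun i _ => ?_) (fun i _ => ?_)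
  · have : (1 : ℝ) ≤ 2 ^ (i + 1) := one_le_pow₀ (by norm_num)
    exact mul_nonneg (div_nonneg (by norm_num) (by linarith)) (by positivity)
  · have h1 : (1 : ℝ) ≤ 2 ^ i := one_le_pow₀ (by norm_num)
    have h2 : (2 : ℝ) ^ (i + 1) = 2 * 2 ^ i := by ring
    rw [h2, div_mul_eq_mul_div, div_le_iff₀ (by linarith)]
    linarith

theorem ww_small (e ρ : ℕ) (hρ : ρ < 2) : ww (2 * e + ρ) * 2 ^ (e * (e + 2)) ≤ 2 ^ 11 * (1 / 2) ^ e := by
  have h0 := ww_nonneg (2 * e + ρ)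
  have h1 := ww_le (2 * e + ρ)
  have h2 : (4 : ℝ) ^ (2 * e + ρ) ≤ 2 ^ (4 * e + 2) := by
    have : (4 : ℝ) = 2 ^ 2 := by norm_num
    rw [this, ← pow_mul]
    exact pow_le_pow_right₀ (by norm_num) (by omega)
  have h3 : (2 : ℝ) ^ (e * (2 * e + 1)) ≤ 2 ^ ((2 * e + ρ) * (2 * e + ρ + 1) / 2) := by
    refine pow_le_pow_right₀ (by norm_num) ?_
    rw [Nat.le_div_iff_mul_le (by norm_num)]
    nlinarith
  have h4 : ww (2 * e + ρ) * 2 ^ (e * (2 * e + 1)) ≤ 2 ^ (4 * e + 2) :=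
    (mul_le_mul_of_nonneg_left h3 h0).trans (h1.trans h2)
  have h5 : (2 : ℝ) ^ (6 * e + 2) ≤ 2 ^ (e * e + 11) := by
    refine pow_le_pow_right₀ (by norm_num) ?_
    rcases Nat.lt_or_ge e 3 with h | h
    · interval_cases e <;> norm_num
    · obtain ⟨f, rfl⟩ := Nat.exists_eq_add_of_le h
      nlinarith
  have h6 : ww (2 * e + ρ) * 2 ^ (e * (e + 2)) * 2 ^ e * 2 ^ (e * e) ≤ 2 ^ 11 * 2 ^ (e * e) := by
    calc ww (2 * e + ρ) * 2 ^ (e * (e + 2)) * 2 ^ e * 2 ^ (e * e)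
        = (ww (2 * e + ρ) * 2 ^ (e * (2 * e + 1))) * 2 ^ (2 * e) := by
          rw [mul_assoc, mul_assoc, ← pow_add, ← pow_add, mul_assoc, ← pow_add]
          congr 2
          ring
      _ ≤ 2 ^ (4 * e + 2) * 2 ^ (2 * e) := mul_le_mul_of_nonneg_right h4 (by positivity)
      _ = 2 ^ (6 * e + 2) := by rw [← pow_add]; congr 1; ring
      _ ≤ 2 ^ (e * e + 11) := h5
      _ = 2 ^ 11 * 2 ^ (e * e) := by rw [pow_add]; ring
  have h7 : ww (2 * e + ρ) * 2 ^ (e * (e + 2)) * 2 ^ e ≤ 2 ^ 11 := le_of_mul_le_mul_right h6 (by positivity)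
  rw [one_div, inv_pow, ← div_eq_mul_inv, le_div_iff₀ (by positivity)]
  exact h7

theorem sumS (e : ℕ) : ∑ j ∈ range e, (2 * (e - j) + 1) = e * (e + 2) := by
  induction e with
  | zero => simp
  | succ e ih =>
    rw [sum_range_succ']
    simp only [Nat.add_sub_add_right, Nat.sub_zero]
    rw [ih]
    ring

theorem diff_ge (μ ρ j : ℕ) (h : j ≠ μ) :
    (2 : ℝ) ^ (2 * j + ρ) / 2 ≤ |(2 : ℝ) ^ (2 * j + ρ) - (2 : ℝ) ^ (2 * μ + ρ)| := by
  rcases lt_or_gt_of_ne h with h | h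
  · have h1 : (2 : ℝ) ^ (2 * j + ρ + 2) ≤ 2 ^ (2 * μ + ρ) := pow_le_pow_right₀ (by norm_num) (by omega)
    have h2 : (2 : ℝ) ^ (2 * j + ρ + 2) = 4 * 2 ^ (2 * j + ρ) := by rw [pow_add]; ring
    have h3 : (0 : ℝ) < 2 ^ (2 * j + ρ) := by positivity
    rw [abs_sub_comm, abs_of_nonneg (by linarith)]
    linarith
  · have h1 : (2 : ℝ) ^ (2 * μ + ρ + 2) ≤ 2 ^ (2 * j + ρ) := pow_le_pow_right₀ (by norm_num) (by omega)
    have h2 : (2 : ℝ) ^ (2 * μ + ρ + 2) = 4 * 2 ^ (2 * μ + ρ) := by rw [pow_add]; ring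
    have h3 : (0 : ℝ) < 2 ^ (2 * μ + ρ) := by positivity
    rw [abs_of_nonneg (by linarith)]
    linarith

theorem diff_ne (μ ρ j : ℕ) (h : j ≠ μ) : (2 : ℝ) ^ (2 * j + ρ) - (2 : ℝ) ^ (2 * μ + ρ) ≠ 0 := by
  have h1 := diff_ge μ ρ j h
  intro h2
  rw [h2, abs_zero] at h1
  have h3 : (0 : ℝ) < 2 ^ (2 * j + ρ) := by positivity
  linarith

theorem gE_self (μ ρ E : ℕ) : gE μ ρ E ((2 : ℝ) ^ (2 * μ + ρ)) = 1 := by
  unfold gE
  refine prod_eq_one fun j hj => ?_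
  exact div_self (diff_ne μ ρ j (mem_erase.1 hj).1)

theorem gE_zero (μ ρ E e : ℕ) (h : e ≠ μ) (he : e < E) : gE μ ρ E ((2 : ℝ) ^ (2 * e + ρ)) = 0 := by
  unfold gE
  refine prod_eq_zero (i := e) (mem_erase.2 ⟨h, mem_range.2 he⟩) ?_
  rw [sub_self, zero_div]

theorem gE_le (μ ρ E e : ℕ) : |gE μ ρ E ((2 : ℝ) ^ (2 * e + ρ))| ≤ 2 ^ (e * (e + 2)) := by
  by_cases h : e = μ
  · rw [h, gE_self, abs_one]
    exact one_le_pow₀ (by norm_num)
  by_cases he : e < E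
  · rw [gE_zero μ ρ E e h he, abs_zero]
    positivity
  push Not at he
  unfold gE
  rw [abs_prod]
  have h1 : ∏ j ∈ (range E).erase μ, |((2 : ℝ) ^ (2 * j + ρ) - (2 : ℝ) ^ (2 * e + ρ)) /
      ((2 : ℝ) ^ (2 * j + ρ) - (2 : ℝ) ^ (2 * μ + ρ))| ≤
      ∏ j ∈ (range E).erase μ, (2 : ℝ) ^ (2 * (e - j) + 1) := by
    refine prod_le_prod (fun _ _ => abs_nonneg _) fun j hj => ?_
    have hjμ := (mem_erase.1 hj).1
    have hjE := mem_range.1 (mem_erase.1 hj).2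
    have h3 : (0 : ℝ) < 2 ^ (2 * j + ρ) := by positivity
    have h4 := diff_ge μ ρ j hjμ
    have h5 : (2 : ℝ) ^ (2 * j + ρ) ≤ 2 ^ (2 * e + ρ) := pow_le_pow_right₀ (by norm_num) (by omega)
    rw [abs_div, div_le_iff₀ (by linarith), abs_sub_comm, abs_of_nonneg (by linarith)]
    calc (2 : ℝ) ^ (2 * e + ρ) - 2 ^ (2 * j + ρ) ≤ 2 ^ (2 * e + ρ) := by linarith
      _ = 2 ^ (2 * (e - j) + 1) * (2 ^ (2 * j + ρ) / 2) := by
          have : 2 * e + ρ = 2 * (e - j) + (2 * j + ρ) := by omega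
          conv_lhs => rw [this, pow_add]
          rw [pow_succ]
          ring
      _ ≤ _ := mul_le_mul_of_nonneg_left h4 (by positivity)
  refine h1.trans ?_
  rw [prod_pow_eq_pow_sum, ← sumS]
  refine pow_le_pow_right₀ (by norm_num) ?_
  refine sum_le_sum_of_subset fun j hj => ?_
  rw [mem_range]
  have := mem_range.1 (mem_erase.1 hj).2
  omega

theorem t_LWB : Pool.Agent.D0H99.OD.S_LWB := by
  intro μ ρ hρ
  have hlim : ∑' e : ℕ, (if e = μ then aa (2 * μ + ρ) else 0) = aa (2 * μ + ρ) := tsum_ite_eq μ _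
  rw [← hlim]
  refine tendsto_tsum_of_dominated_convergence
    (bound := fun e => |∑' j, ww j|⁻¹ * (2 ^ 11 * (1 / 2) ^ e)) ?_ ?_ ?_
  · exact ((summable_geometric_of_lt_one (by norm_num) (by norm_num)).mul_left _).mul_left _
  · intro e
    refine tendsto_const_nhds.congr' ?_
    filter_upwards [eventually_gt_atTop e] with E hE
    by_cases h : e = μ
    · rw [if_pos h, h, gE_self, mul_one]
    · rw [if_neg h, gE_zero μ ρ E e h hE, mul_zero]
  · refine Eventually.of_forall fun E e => ?_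
    rw [Real.norm_eq_abs, abs_mul]
    unfold aa
    rw [abs_div, abs_of_nonneg (ww_nonneg _), div_eq_inv_mul, mul_assoc]
    refine mul_le_mul_of_nonneg_left ?_ (by positivity)
    exact (mul_le_mul_of_nonneg_left (gE_le μ ρ E e) (ww_nonneg _)).trans (ww_small e ρ hρ)

end Pool.Agent.D0H62.OD
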